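import Pool.Agent.W940.LSD.Stm

set_option autoImplicit false

namespace Pool.Agent.W332.LSD

open Finset Filter Pool.Agent.W307.LS Pool.Agent.W940.LSD

open scoped Classical

lemma count_bound (T m : ℕ) (hm : 0 < m) (a : ℤ) :
    |((((Icc (-(T : ℤ)) T).filter (fun b : ℤ => (m : ℤ) ∣ a - b)).card : ℝ)) -
      (2 * (T : ℝ) + 1) / m| ≤ 1 := by
  have h1 : (Icc (-(T : ℤ)) T).filter (fun b : ℤ => (m : ℤ) ∣ a - b) =
      (Ioc (-(T : ℤ) - 1) T).filter (fun b : ℤ => b ≡ a [ZMOD (m : ℤ)]) := by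
    ext b
    simp only [mem_filter, mem_Icc, mem_Ioc]
    constructor
    · rintro ⟨⟨h1, h2⟩, h3⟩
      exact ⟨⟨by omega, h2⟩, Int.modEq_iff_dvd.2 h3⟩
    · rintro ⟨⟨h1, h2⟩, h3⟩
      exact ⟨⟨by omega, h2⟩, Int.modEq_iff_dvd.1 h3⟩
  have hm' : (0 : ℤ) < (m : ℤ) := by exact_mod_cast hm
  have h2 := Int.Ioc_filter_modEq_card (-(T : ℤ) - 1) T hm' a
  rw [h1]
  have hq : (0 : ℚ) < (m : ℚ) := by exact_mod_cast hm
  generalize hc : ((Ioc (-(T : ℤ) - 1) T).filter (fun b : ℤ => b ≡ a [ZMOD (m : ℤ)])).card = c at h2 ⊢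
  have hcc : (c : ℤ) = max (⌊((((T : ℤ) : ℚ)) - (a : ℚ)) / ((m : ℤ) : ℚ)⌋ -
      ⌊((((-(T : ℤ) - 1 : ℤ)) : ℚ) - (a : ℚ)) / ((m : ℤ) : ℚ)⌋) 0 := by
    rw [← hc]
    convert h2 using 2
  set x : ℚ := ((((T : ℤ) : ℚ)) - (a : ℚ)) / ((m : ℤ) : ℚ) with hx
  set z : ℚ := ((((-(T : ℤ) - 1 : ℤ)) : ℚ) - (a : ℚ)) / ((m : ℤ) : ℚ) with hz
  have hxz : x - z = (2 * (T : ℚ) + 1) / m := by
    rw [hx, hz]
    push_cast
    field_simp
    ring
  have f1 := Int.floor_le x
  have f2 := Int.lt_floor_add_one x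
  have f3 := Int.floor_le z
  have f4 := Int.lt_floor_add_one z
  have hpos : (0 : ℚ) ≤ x - z := by
    rw [hxz]; positivity
  have hd : (0 : ℤ) ≤ ⌊x⌋ - ⌊z⌋ := by
    have : (-1 : ℚ) < ((⌊x⌋ - ⌊z⌋ : ℤ) : ℚ) := by push_cast; linarith
    have h5 : (-1 : ℤ) < ⌊x⌋ - ⌊z⌋ := by exact_mod_cast this
    omega
  rw [max_eq_left hd] at hcc
  have hcq : (c : ℚ) = (⌊x⌋ : ℚ) - (⌊z⌋ : ℚ) := by exact_mod_cast hcc
  have hfin : |(c : ℚ) - (2 * (T : ℚ) + 1) / m| ≤ 1 := by
    rw [← hxz, hcq, abs_le]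
    constructor <;> linarith
  have := (Rat.cast_le (K := ℝ)).2 hfin
  push_cast at this
  exact this

lemma exists_neg (p q : ℕ) [hp : Fact p.Prime] [hq : Fact q.Prime] (hp2 : p ≠ 2) (hpq : p ≠ q) :
    ∃ c : ℤ, jacobiSym c (p * q) = -1 := by
  obtain ⟨a, ha⟩ := quadraticChar_exists_neg_one (F := ZMod p) (by rw [ZMod.ringChar_zmod_n]; exact hp2)
  have hco : Nat.Coprime p q := (Nat.coprime_primes hp.out hq.out).2 hpq
  obtain ⟨k, hk1, hk2⟩ := Nat.chineseRemainder hco a.val 1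
  refine ⟨(k : ℤ), ?_⟩
  haveI : NeZero p := ⟨hp.out.ne_zero⟩
  haveI : NeZero q := ⟨hq.out.ne_zero⟩
  rw [jacobiSym.mul_right]
  have e1 : jacobiSym (k : ℤ) p = jacobiSym (a.val : ℤ) p := by
    apply jacobiSym.mod_left'
    exact_mod_cast hk1
  have e2 : jacobiSym (k : ℤ) q = jacobiSym (1 : ℤ) q := by
    apply jacobiSym.mod_left'
    exact_mod_cast hk2
  rw [e1, e2, jacobiSym.one_left, ← jacobiSym.legendreSym.to_jacobiSym]
  unfold legendreSym
  have : (((a.val : ℤ)) : ZMod p) = a := by simp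
  rw [this, ha]
  norm_num

lemma sum_period (m : ℕ) (hm : 0 < m) (c : ℤ) (hc : jacobiSym c m = -1) (A : ℤ) :
    ∑ a ∈ Ico A (A + (m : ℤ)), jacobiSym a m = 0 := by
  haveI : NeZero m := ⟨hm.ne'⟩
  set g : ZMod m → ℤ := fun x => jacobiSym (x.val : ℤ) m with hg
  have hfg : ∀ a : ℤ, jacobiSym a m = g (a : ZMod m) := by
    intro a
    rw [hg]
    simp only
    rw [ZMod.val_intCast]
    exact jacobiSym.mod_left a m
  have hmul : ∀ x : ZMod m, g ((c : ZMod m) * x) = - g x := by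
    intro x
    have hx : x = (((x.val : ℤ)) : ZMod m) := by simp
    have h1 : g ((c : ZMod m) * x) = jacobiSym (c * (x.val : ℤ)) m := by
      rw [hfg]
      push_cast
      rw [ZMod.natCast_zmod_val]
    rw [h1, jacobiSym.mul_left, hc]
    rw [hg]
    simp
  have hu : IsUnit (c : ZMod m) := by
    rw [ZMod.coe_int_isUnit_iff_isCoprime]
    rw [Int.isCoprime_iff_gcd_eq_one]
    by_contra hne
    have h2 : jacobiSym c m = 0 := by
      rw [jacobiSym.eq_zero_iff_not_coprime]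
      rwa [Int.gcd_comm] at hne
    rw [hc] at h2
    norm_num at h2
  have hsum : ∑ x : ZMod m, g x = 0 := by
    have h1 : ∑ x : ZMod m, g ((c : ZMod m) * x) = ∑ x : ZMod m, g x := by
      apply Fintype.sum_equiv (Units.mulLeft hu.unit)
      intro x
      rfl
    have h2 : ∑ x : ZMod m, g ((c : ZMod m) * x) = - ∑ x : ZMod m, g x := by
      rw [← Finset.sum_neg_distrib]
      exact Finset.sum_congr rfl (fun x _ => hmul x)
    omega
  rw [← hsum]
  have hinj : Set.InjOn (fun a : ℤ => (a : ZMod m)) (Ico A (A + (m : ℤ)) : Finset ℤ) := by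
    intro a ha b hb hab
    simp only [coe_Ico, Set.mem_Ico] at ha hb
    have h3 := (ZMod.intCast_eq_intCast_iff_dvd_sub a b m).1 hab
    obtain ⟨k, hk⟩ := h3
    have hk0 : k = 0 := by
      by_contra hk0
      rcases lt_or_gt_of_ne hk0 with h | h
      · have : (m : ℤ) * k ≤ -(m : ℤ) := by nlinarith [(by exact_mod_cast hm : (0 : ℤ) < m)]
        omega
      · have : (m : ℤ) ≤ (m : ℤ) * k := by nlinarith [(by exact_mod_cast hm : (0 : ℤ) < m)]
        omega
    rw [hk0, mul_zero] at hk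
    omega
  have himg : (Ico A (A + (m : ℤ))).image (fun a : ℤ => (a : ZMod m)) = univ := by
    apply Finset.eq_univ_of_card
    rw [Finset.card_image_of_injOn hinj, Int.card_Ico, ZMod.card]
    simp
  rw [← himg, Finset.sum_image hinj]
  exact Finset.sum_congr rfl (fun a _ => hfg a)

lemma jac_abs (a : ℤ) (m : ℕ) : |jacobiSym a m| ≤ 1 := by
  rcases jacobiSym.trichotomy a m with h | h | h <;> rw [h] <;> norm_num

lemma sum_bound (m : ℕ) (hm : 0 < m) (h0 : ∀ A : ℤ, ∑ a ∈ Ico A (A + (m : ℤ)), jacobiSym a m = 0) :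
    ∀ (N : ℕ) (A : ℤ), |∑ a ∈ Ico A (A + (N : ℤ)), jacobiSym a m| ≤ m := by
  intro N
  induction N using Nat.strong_induction_on with
  | _ N ih =>
    intro A
    rcases lt_or_ge N m with h | h
    · calc |∑ a ∈ Ico A (A + (N : ℤ)), jacobiSym a m|
          ≤ ∑ a ∈ Ico A (A + (N : ℤ)), |jacobiSym a m| := Finset.abs_sum_le_sum_abs _ _
        _ ≤ ∑ a ∈ Ico A (A + (N : ℤ)), (1 : ℤ) := Finset.sum_le_sum (fun a _ => jac_abs a m)
        _ = N := by simp
        _ ≤ m := by exact_mod_cast h.le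
    · have h1 := ih (N - m) (by omega) (A + m)
      have h2 : A + (m : ℤ) + ((N - m : ℕ) : ℤ) = A + (N : ℤ) := by
        rw [Nat.cast_sub h]; ring
      rw [h2] at h1
      have h3 : ∑ a ∈ Ico A (A + (N : ℤ)), jacobiSym a m =
          ∑ a ∈ Ico A (A + (m : ℤ)), jacobiSym a m +
            ∑ a ∈ Ico (A + (m : ℤ)) (A + (N : ℤ)), jacobiSym a m := by
        rw [← Finset.sum_union (by
          rw [Finset.disjoint_left]
          intro x hx hx2
          rw [mem_Ico] at hx hx2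
          omega)]
        congr 1
        ext x
        simp only [mem_union, mem_Ico]
        have : (m : ℤ) ≤ N := by exact_mod_cast h
        omega
      rw [h3, h0 A, zero_add]
      exact h1

theorem chr : CHR := by
  intro y T
  set N : ℝ := 2 * (T : ℝ) + 1 with hN
  have hN0 : 0 ≤ N := by positivity
  set I : Finset ℤ := Icc (-(T : ℤ)) T with hI
  have hIcard : ((I.card : ℕ) : ℝ) = N := by
    rw [hI, Int.card_Icc, hN]
    have : ((T : ℤ) + 1 - -(T : ℤ)).toNat = 2 * T + 1 := by omega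
    rw [this]; push_cast; ring
  -- the terms
  set e : ℕ → ℤ → ℤ → ℝ := fun p a b => if (p : ℤ) ∣ a - b then ((jacobiSym a p : ℤ) : ℝ) else 0 with he
  have hVV : ∀ a b : ℤ, VV y a b ^ 2 = ∑ p ∈ PP y, ∑ q ∈ PP y, e p a b * e q a b := by
    intro a b
    have h1 : VV y a b = ∑ p ∈ PP y, e p a b := by
      unfold VV
      rw [Finset.sum_filter]
    rw [h1, sq, Finset.sum_mul_sum]
  have hswap : ∑ a ∈ I, ∑ b ∈ I, VV y a b ^ 2 =
      ∑ p ∈ PP y, ∑ q ∈ PP y, ∑ a ∈ I, ∑ b ∈ I, e p a b * e q a b := by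
    calc ∑ a ∈ I, ∑ b ∈ I, VV y a b ^ 2
        = ∑ a ∈ I, ∑ b ∈ I, ∑ p ∈ PP y, ∑ q ∈ PP y, e p a b * e q a b :=
          Finset.sum_congr rfl (fun a _ => Finset.sum_congr rfl (fun b _ => hVV a b))
      _ = ∑ a ∈ I, ∑ p ∈ PP y, ∑ b ∈ I, ∑ q ∈ PP y, e p a b * e q a b :=
          Finset.sum_congr rfl (fun a _ => Finset.sum_comm)
      _ = ∑ p ∈ PP y, ∑ a ∈ I, ∑ b ∈ I, ∑ q ∈ PP y, e p a b * e q a b := Finset.sum_comm
      _ = ∑ p ∈ PP y, ∑ a ∈ I, ∑ q ∈ PP y, ∑ b ∈ I, e p a b * e q a b :=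
          Finset.sum_congr rfl (fun p _ => Finset.sum_congr rfl (fun a _ => Finset.sum_comm))
      _ = ∑ p ∈ PP y, ∑ q ∈ PP y, ∑ a ∈ I, ∑ b ∈ I, e p a b * e q a b :=
          Finset.sum_congr rfl (fun p _ => Finset.sum_comm)
  have hPPpos : ∀ p ∈ PP y, p.Prime ∧ p ≠ 2 := by
    intro p hp
    exact (Finset.mem_filter.1 hp).2
  have hPPc : ((PP y).card : ℝ) ≤ y := by
    have h1 : PP y ⊆ Finset.Icc 1 y := by
      intro p hp
      have h2 := Finset.mem_filter.1 hp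
      rw [Finset.mem_range] at h2
      rw [Finset.mem_Icc]
      exact ⟨h2.2.1.one_lt.le, by omega⟩
    have h3 := Finset.card_le_card h1
    rw [Nat.card_Icc] at h3
    exact_mod_cast (by omega : (PP y).card ≤ y)
  have hjr : ∀ (a : ℤ) (m : ℕ), |((jacobiSym a m : ℤ) : ℝ)| ≤ 1 := by
    intro a m
    have := jac_abs a m
    exact_mod_cast this
  -- the count for one modulus
  have hcnt : ∀ (m : ℕ), 0 < m → ∀ a : ℤ,
      |(∑ b ∈ I, if (m : ℤ) ∣ a - b then (1 : ℝ) else 0) - N / m| ≤ 1 := by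
    intro m hm a
    have h1 := count_bound T m hm a
    rw [← Finset.sum_filter, Finset.sum_const, nsmul_eq_mul, mul_one]
    exact h1
  have hdiag : ∀ p ∈ PP y, ∑ a ∈ I, ∑ b ∈ I, e p a b * e p a b ≤ N * (N / p + 1) := by
    intro p hp
    have hpp := (hPPpos p hp).1
    have h1 : ∀ a ∈ I, ∑ b ∈ I, e p a b * e p a b ≤ N / p + 1 := by
      intro a _
      have h2 : ∑ b ∈ I, e p a b * e p a b ≤ ∑ b ∈ I, if (p : ℤ) ∣ a - b then (1 : ℝ) else 0 := by
        apply Finset.sum_le_sum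
        intro b _
        rw [he]
        simp only
        split_ifs with h
        · have h3 := hjr a p
          rw [abs_le] at h3
          nlinarith
        · norm_num
      have h3 := hcnt p hpp.pos a
      rw [abs_le] at h3
      linarith
    calc ∑ a ∈ I, ∑ b ∈ I, e p a b * e p a b ≤ ∑ a ∈ I, (N / p + 1) := Finset.sum_le_sum h1
      _ = N * (N / p + 1) := by
        rw [Finset.sum_const, nsmul_eq_mul, hIcard]
  have hoff : ∀ p ∈ PP y, ∀ q ∈ PP y, p ≠ q → ∑ a ∈ I, ∑ b ∈ I, e p a b * e q a b ≤ 2 * N := by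
    intro p hp q hq hpq
    obtain ⟨hpp, hp2⟩ := hPPpos p hp
    obtain ⟨hqq, hq2⟩ := hPPpos q hq
    haveI : Fact p.Prime := ⟨hpp⟩
    haveI : Fact q.Prime := ⟨hqq⟩
    haveI : NeZero p := ⟨hpp.ne_zero⟩
    haveI : NeZero q := ⟨hqq.ne_zero⟩
    have hm : 0 < p * q := Nat.mul_pos hpp.pos hqq.pos
    obtain ⟨c, hc⟩ := exists_neg p q hp2 hpq
    have hsum := sum_bound (p * q) hm (fun A => sum_period (p * q) hm c hc A) (2 * T + 1) (-(T : ℤ))
    have hIe : Ico (-(T : ℤ)) (-(T : ℤ) + ((2 * T + 1 : ℕ) : ℤ)) = I := by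
      rw [hI]
      ext x
      simp only [mem_Ico, mem_Icc]
      push_cast
      omega
    rw [hIe] at hsum
    have hsum' : |∑ a ∈ I, ((jacobiSym a (p * q) : ℤ) : ℝ)| ≤ ((p * q : ℕ) : ℝ) := by
      exact_mod_cast hsum
    have hco : IsCoprime (p : ℤ) (q : ℤ) :=
      Nat.isCoprime_iff_coprime.2 ((Nat.coprime_primes hpp hqq).2 hpq)
    have hterm : ∀ a ∈ I, ∑ b ∈ I, e p a b * e q a b = ((jacobiSym a (p * q) : ℤ) : ℝ) *
        ∑ b ∈ I, (if ((p * q : ℕ) : ℤ) ∣ a - b then (1 : ℝ) else 0) := by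
      intro a _
      rw [Finset.mul_sum]
      apply Finset.sum_congr rfl
      intro b _
      rw [he]
      simp only
      have hiff : ((p * q : ℕ) : ℤ) ∣ a - b ↔ (p : ℤ) ∣ a - b ∧ (q : ℤ) ∣ a - b := by
        push_cast
        constructor
        · intro h
          exact ⟨(Dvd.intro _ rfl).trans h, (Dvd.intro_left _ rfl).trans h⟩
        · rintro ⟨h1, h2⟩
          exact hco.mul_dvd h1 h2
      by_cases h1 : (p : ℤ) ∣ a - b
      · by_cases h2 : (q : ℤ) ∣ a - b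
        · rw [if_pos h1, if_pos h2, if_pos (hiff.2 ⟨h1, h2⟩), jacobiSym.mul_right]
          push_cast
          ring
        · rw [if_neg h2, if_neg (fun h => h2 (hiff.1 h).2)]
          ring
      · rw [if_neg h1, if_neg (fun h => h1 (hiff.1 h).1)]
        ring
    rw [Finset.sum_congr rfl hterm]
    have hmR : (0 : ℝ) < ((p * q : ℕ) : ℝ) := by exact_mod_cast hm
    calc ∑ a ∈ I, ((jacobiSym a (p * q) : ℤ) : ℝ) *
          ∑ b ∈ I, (if ((p * q : ℕ) : ℤ) ∣ a - b then (1 : ℝ) else 0)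
        = ∑ a ∈ I, (((jacobiSym a (p * q) : ℤ) : ℝ) * (N / ((p * q : ℕ) : ℝ)) +
            ((jacobiSym a (p * q) : ℤ) : ℝ) *
            ((∑ b ∈ I, (if ((p * q : ℕ) : ℤ) ∣ a - b then (1 : ℝ) else 0)) -
              N / ((p * q : ℕ) : ℝ))) := by
          apply Finset.sum_congr rfl
          intro a _
          ring
      _ = (∑ a ∈ I, ((jacobiSym a (p * q) : ℤ) : ℝ)) * (N / ((p * q : ℕ) : ℝ)) +
            ∑ a ∈ I, ((jacobiSym a (p * q) : ℤ) : ℝ) *
            ((∑ b ∈ I, (if ((p * q : ℕ) : ℤ) ∣ a - b then (1 : ℝ) else 0)) -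
              N / ((p * q : ℕ) : ℝ)) := by
          rw [Finset.sum_add_distrib, Finset.sum_mul]
      _ ≤ ((p * q : ℕ) : ℝ) * (N / ((p * q : ℕ) : ℝ)) + ∑ a ∈ I, (1 : ℝ) := by
          apply add_le_add
          · apply mul_le_mul_of_nonneg_right
            · exact (le_abs_self _).trans hsum'
            · positivity
          · apply Finset.sum_le_sum
            intro a _
            refine (le_abs_self _).trans ?_
            rw [abs_mul]
            have h1 := hjr a (p * q)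
            have h2 := hcnt (p * q) hm a
            calc |((jacobiSym a (p * q) : ℤ) : ℝ)| *
                |(∑ b ∈ I, (if ((p * q : ℕ) : ℤ) ∣ a - b then (1 : ℝ) else 0)) -
                  N / ((p * q : ℕ) : ℝ)| ≤ 1 * 1 :=
                  mul_le_mul h1 h2 (abs_nonneg _) (by norm_num)
              _ = 1 := by norm_num
      _ = 2 * N := by
          rw [Finset.sum_const, nsmul_eq_mul, hIcard]
          field_simp
          ring
  have hall : ∀ p ∈ PP y, ∀ q ∈ PP y, ∑ a ∈ I, ∑ b ∈ I, e p a b * e q a b ≤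
      (if p = q then N * (N / p + 1) else 0) + 2 * N := by
    intro p hp q hq
    by_cases h : p = q
    · subst h
      rw [if_pos rfl]
      have := hdiag p hp
      linarith
    · rw [if_neg h]
      have := hoff p hp q hq h
      linarith
  rw [hswap]
  calc ∑ p ∈ PP y, ∑ q ∈ PP y, ∑ a ∈ I, ∑ b ∈ I, e p a b * e q a b
      ≤ ∑ p ∈ PP y, ∑ q ∈ PP y, ((if p = q then N * (N / p + 1) else 0) + 2 * N) :=
        Finset.sum_le_sum (fun p hp => Finset.sum_le_sum (fun q hq => hall p hp q hq))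
    _ = ∑ p ∈ PP y, (N * (N / p + 1) + (PP y).card * (2 * N)) := by
        apply Finset.sum_congr rfl
        intro p hp
        rw [Finset.sum_add_distrib, Finset.sum_ite_eq, if_pos hp, Finset.sum_const, nsmul_eq_mul]
    _ = N ^ 2 * LL y + N * (PP y).card + 2 * N * ((PP y).card : ℝ) ^ 2 := by
        unfold LL
        rw [Finset.sum_add_distrib, Finset.sum_const, nsmul_eq_mul, Finset.mul_sum]
        have : ∑ p ∈ PP y, N * (N / (p : ℝ) + 1) = ∑ p ∈ PP y, (N ^ 2 * (1 / (p : ℝ)) + N) := by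
          apply Finset.sum_congr rfl
          intro p _
          ring
        rw [this, Finset.sum_add_distrib, Finset.sum_const, nsmul_eq_mul]
        ring
    _ ≤ N ^ 2 * LL y + 3 * N * (y : ℝ) ^ 2 := by
        have hc0 : (0 : ℝ) ≤ (PP y).card := by positivity
        have hc1 : ((PP y).card : ℝ) ≤ ((PP y).card : ℝ) ^ 2 := by
          exact_mod_cast Nat.le_self_pow (by norm_num) _
        have hc2 : ((PP y).card : ℝ) ^ 2 ≤ (y : ℝ) ^ 2 := pow_le_pow_left₀ hc0 hPPc 2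
        nlinarith [mul_nonneg hN0 (sub_nonneg.2 hc1), mul_nonneg hN0 (sub_nonneg.2 hc2)]

end Pool.Agent.W332.LSD
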